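import Mathlib

set_option autoImplicit false

namespace Pool.Agent.H.MP_15e61c_co

open Finset Pointwise

def X (a : ℕ → ℕ) (m k : ℕ) : Finset ℤ :=
  (Ioc (k * m) ((k + 1) * m)).image (fun i => (a i : ℤ) - i)

def Y (a : ℕ → ℕ) (m k : ℕ) : Finset ℤ :=
  (Ioc (k * m) ((k + 1) * m)).image (fun i => (a i : ℤ) + i)

def w (S : Finset ℕ) (m d : ℕ) : ℕ := (S.filter (fun s => d ≤ s / m + 1 ∧ s / m ≤ d + 3)).card

lemma blk (m k : ℕ) : (Ioc (k * m) ((k + 1) * m)).card = m := by
  rw [Nat.card_Ioc, add_mul]; omega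

lemma diff (a : ℕ → ℕ) (m k : ℕ) : m ≤ (Y a m k - X a m k).card := by
  refine le_trans (blk m k).ge (card_le_card_of_injOn (fun i : ℕ => (2 * i : ℤ)) ?_ ?_)
  · intro i hi
    exact mem_coe.2 (mem_sub.2 ⟨_, mem_image_of_mem _ (mem_coe.1 hi), _,
      mem_image_of_mem _ (mem_coe.1 hi), by ring⟩)
  · intro i _ j _ h
    have : (2 * i : ℤ) = 2 * j := h
    omega

lemma X_le (a : ℕ → ℕ) (m k : ℕ) : (X a m k).card ≤ m := le_trans card_image_le (blk m k).le

lemma XY (a : ℕ → ℕ) (m k : ℕ) : m ≤ (Y a m k).card * (X a m k).card :=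
  le_trans (diff a m k) card_sub_le

lemma sum_w (S : Finset ℕ) (m G : ℕ) (f : ℕ → ℕ) (hf : Function.Injective f) :
    ∑ g ∈ range G, w S m (f g) ≤ 5 * S.card := by
  unfold w
  simp only [card_filter]
  rw [sum_comm, mul_comm, ← smul_eq_mul]
  apply sum_le_card_nsmul
  intro s _
  rw [← card_filter]
  have : (Icc (s / m - 3) (s / m + 1)).card ≤ 5 := by rw [Nat.card_Icc]; omega
  refine le_trans (card_le_card_of_injOn f ?_ hf.injOn) this
  intro g hg
  have := (mem_filter.1 hg).2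
  simp only [coe_Icc, Set.mem_Icc]; omega

section
variable {n m : ℕ} {a : ℕ → ℕ} {S : Finset ℕ} (hm : 0 < m) (ha : ∀ i ∈ Icc 1 n, a i ≤ m)
  (hS : ∀ i j, 1 ≤ i → i < j → j ≤ n → a i + a j + (j - i) ∈ S)
include hm ha hS

lemma sum_le (k d : ℕ) (hd : 0 < d) (hn : (k + d + 1) * m ≤ n) :
    (X a m k + Y a m (k + d)).card ≤ w S m d := by
  unfold w
  refine le_trans (card_le_card (t := (S.filter (fun s => d ≤ s / m + 1 ∧ s / m ≤ d + 3)).image
    (fun s : ℕ => (s : ℤ))) ?_) card_image_le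
  intro z hz
  obtain ⟨x, hx, y, hy, rfl⟩ := mem_add.1 hz
  obtain ⟨i, hi, rfl⟩ := mem_image.1 hx
  obtain ⟨j, hj, rfl⟩ := mem_image.1 hy
  rw [mem_Ioc] at hi hj
  obtain ⟨e, rfl⟩ : ∃ e, d = e + 1 := ⟨d - 1, by omega⟩
  have e1 : (k + (e + 1)) * m = k * m + e * m + m := by ring
  have e2 : (k + (e + 1) + 1) * m = k * m + e * m + m + m := by ring
  have e3 : (k + 1) * m = k * m + m := by ring
  have e4 : (e + 1 + 3 + 1) * m = e * m + 5 * m := by ring
  have h1 := ha i (mem_Icc.2 ⟨by omega, by omega⟩)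
  have h2 := ha j (mem_Icc.2 ⟨by omega, by omega⟩)
  refine mem_image.2 ⟨a i + a j + (j - i), mem_filter.2 ⟨hS i j (by omega) (by omega) (by omega),
    ?_, ?_⟩, ?_⟩
  · have : e ≤ (a i + a j + (j - i)) / m := (Nat.le_div_iff_mul_le hm).2 (by omega)
    omega
  · have : (a i + a j + (j - i)) / m < e + 1 + 3 + 1 := (Nat.div_lt_iff_lt_mul hm).2 (by omega)
    omega
  · have : i ≤ j := by omega
    push_cast [this]; ring

lemma core (r G : ℕ) (hr : m < 2 ^ r) (hG : 0 < G) (hn : (2 * G * r + 1) * m ≤ n) :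
    m ^ 2 * G ^ 3 ≤ 2000 * S.card ^ 3 := by
  have h1 : ∑ g ∈ range G, (w S m (g + 1) + w S m (2 * (g + 1))) * G ≤
      ∑ _g ∈ range G, 10 * S.card := by
    rw [← sum_mul, sum_add_distrib, sum_const, card_range, smul_eq_mul, mul_comm G]
    have a1 := sum_w S m G (fun g => g + 1) (fun x y h => by simpa using h)
    have a2 := sum_w S m G (fun g => 2 * (g + 1)) (fun x y h => by
      have : 2 * (x + 1) = 2 * (y + 1) := h
      omega)
    exact Nat.mul_le_mul_right _ (by omega)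
  obtain ⟨g, hg, hK⟩ := exists_le_of_sum_le (nonempty_range_iff.2 hG.ne') h1
  have hg' := mem_range.1 hg
  have h2 : ∃ k < r, (X a m (2 * (g + 1) * (k + 1))).card < 2 * (X a m (2 * (g + 1) * k)).card := by
    by_contra hc
    push Not at hc
    have : ∀ k ≤ r, 2 ^ k ≤ (X a m (2 * (g + 1) * k)).card := by
      intro k
      induction k with
      | zero =>
        intro _
        have := XY a m (2 * (g + 1) * 0)
        rcases Nat.eq_zero_or_pos (X a m (2 * (g + 1) * 0)).card with q | q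
        · rw [q] at this; omega
        · exact q
      | succ k ih =>
        intro hk
        have := hc k (by omega)
        have := ih (by omega)
        rw [pow_succ]; omega
    have h3 := this r le_rfl
    have h4 := X_le a m (2 * (g + 1) * r)
    omega
  obtain ⟨k, hk, hx⟩ := h2
  set L := 2 * (g + 1) * k with hL
  have eJ : 2 * (g + 1) * (k + 1) = L + 2 * (g + 1) := by rw [hL]; ring
  have eJ' : L + (g + 1) + (g + 1) = L + 2 * (g + 1) := by ring
  rw [eJ] at hx
  have hJ : (L + 2 * (g + 1) + 1) * m ≤ n := by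
    refine le_trans (Nat.mul_le_mul_right _ ?_) hn
    rw [← eJ]
    exact Nat.succ_le_succ (Nat.mul_le_mul (by omega) (by omega))
  have b1 := sum_le hm ha hS L (g + 1) (by omega)
    (le_trans (Nat.mul_le_mul_right _ (by omega)) hJ)
  have b2 := sum_le hm ha hS (L + (g + 1)) (g + 1) (by omega) (by rw [eJ']; exact hJ)
  have b3 := sum_le hm ha hS L (2 * (g + 1)) (by omega) hJ
  rw [eJ'] at b2
  have r1 := ruzsa_triangle_inequality_sub_add_add (Y a m (L + (g + 1)))
    (Y a m (L + 2 * (g + 1))) (X a m (L + (g + 1)))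
  have r2 := ruzsa_triangle_inequality_add_add_add (Y a m (L + (g + 1))) (X a m L)
    (Y a m (L + 2 * (g + 1)))
  rw [add_comm (Y a m (L + (g + 1))) (X a m L)] at r2
  have d1 := diff a m (L + (g + 1))
  have d2 := XY a m (L + 2 * (g + 1))
  set K := w S m (g + 1) + w S m (2 * (g + 1)) with hKd
  have c1 : (X a m L + Y a m (L + (g + 1))).card ≤ K := by omega
  have c2 : (X a m (L + (g + 1)) + Y a m (L + 2 * (g + 1))).card ≤ K := by omega
  have c3 : (X a m L + Y a m (L + 2 * (g + 1))).card ≤ K := by omega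
  generalize (X a m L + Y a m (L + (g + 1))).card = p1 at *
  generalize (X a m (L + (g + 1)) + Y a m (L + 2 * (g + 1))).card = p2 at *
  generalize (X a m L + Y a m (L + 2 * (g + 1))).card = p3 at *
  generalize (Y a m (L + (g + 1)) + Y a m (L + 2 * (g + 1))).card = q at *
  generalize (Y a m (L + (g + 1)) - X a m (L + (g + 1))).card = D at *
  generalize (Y a m (L + 2 * (g + 1))).card = y at *
  generalize (X a m (L + 2 * (g + 1))).card = x' at *
  generalize (X a m L).card = x at *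
  have f1 : m ^ 2 ≤ 2 * K ^ 3 := by
    calc m ^ 2 = m * m := sq m
      _ ≤ D * (y * (2 * x)) := Nat.mul_le_mul d1 (le_trans d2 (Nat.mul_le_mul_left _ hx.le))
      _ = 2 * (D * y * x) := by ring
      _ ≤ 2 * (q * p2 * x) := Nat.mul_le_mul_left _ (Nat.mul_le_mul_right _ r1)
      _ = 2 * (q * x * p2) := by ring
      _ ≤ 2 * (p1 * p3 * p2) := Nat.mul_le_mul_left _ (Nat.mul_le_mul_right _ r2)
      _ ≤ 2 * (K * K * K) := Nat.mul_le_mul_left _ (Nat.mul_le_mul (Nat.mul_le_mul c1 c3) c2)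
      _ = 2 * K ^ 3 := by ring
  calc m ^ 2 * G ^ 3 ≤ 2 * K ^ 3 * G ^ 3 := Nat.mul_le_mul_right _ f1
    _ = 2 * (K * G) ^ 3 := by ring
    _ ≤ 2 * (10 * S.card) ^ 3 := Nat.mul_le_mul_left _ (Nat.pow_le_pow_left hK 3)
    _ = 2000 * S.card ^ 3 := by ring
end

end Pool.Agent.H.MP_15e61c_co
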